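import Mathlib
import Pool.Agent.Helper75.GirthMain

/-!
For `k` in `{1, 2, 3, 5}` every even `n` with `10 ^ 8 * δ ^ k ≤ n` is the order of a `δ`-regular
graph of girth at least `2 * k + 2`.  By the Moore bound the exponent `k` is best possible.
-/

set_option autoImplicit false
open Classical

namespace Pool.Agent.Results.MP_49aecc_co.EvenOrdersGirthTwelve

theorem result :
    ∀ δ n k : ℕ, Even n → (k = 1 ∨ k = 2 ∨ k = 3 ∨ k = 5) → 10 ^ 8 * δ ^ k ≤ n →
      ∃ G : SimpleGraph (Fin n),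
        G.IsRegularOfDegree δ ∧ ((2 * k + 2 : ℕ) : ℕ∞) ≤ G.egirth := by
  intro δ n k hn hk h
  obtain ⟨W, hW, G, hcard, hreg, hL⟩ := Helper75.has_all δ n k hn hk h
  obtain ⟨H, hH, hg⟩ := Helper75.exists_fin G n δ (2 * k + 2) hcard hreg hL
  refine ⟨H, ?_, hg⟩
  intro v
  rw [← SimpleGraph.card_neighborSet_eq_degree, ← Nat.card_eq_fintype_card]
  exact hH v

end Pool.Agent.Results.MP_49aecc_co.EvenOrdersGirthTwelve
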