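import Mathlib
import Pool.Agent.GRH.Main

/-!
For every prime power `q`, every `2 ≤ δ ≤ q + 1`, every `g ≥ 3` and EVERY even
`n ≥ q ^ (3 g / 4 + 13 √g)` there is a `δ`-regular graph on exactly `n` vertices with girth at
least `g`.  The corollary `cubic_case` (degree 3, `q = 2`, `2 ^ (3/4) < 3 ^ (1/2)`) is the
statement of the problem for `δ = 3`, with one constant for all even `n` and all `g`.
-/

set_option autoImplicit false
open Classical

namespace Pool.Agent.Results.MP_49aecc_co.FourThirdsAllOrders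

theorem result :
    ∀ q δ g n : ℕ, IsPrimePow q → 2 ≤ δ → δ ≤ q + 1 → 3 ≤ g → Even n →
      (q : ℝ) ^ ((3 / 4 : ℝ) * g + 13 * √(g : ℝ)) ≤ n →
      ∃ G : SimpleGraph (Fin n), G.IsRegularOfDegree δ ∧ (g : ℕ∞) ≤ G.egirth := by
  intro q δ g n hq h2 hδ hg hn hbig
  exact GRH.main_real hq (by omega) hδ hg hn hbig

/-- the problem's statement for degree `3` -/
theorem cubic_case :
    ∃ C : ℝ, 0 < C ∧ ∀ n g : ℕ, Even n → 3 ≤ g →
      C * (3 : ℝ) ^ ((g : ℝ) / 2) ≤ (n : ℝ) →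
      ∃ G : SimpleGraph (Fin n), G.IsRegularOfDegree 3 ∧ (g : ℕ∞) ≤ G.egirth :=
  ⟨(2 : ℝ) ^ (1057 : ℝ), by positivity, fun n g hn hg h => GRH.cubic n g hn hg h⟩

end Pool.Agent.Results.MP_49aecc_co.FourThirdsAllOrders
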